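import Pool.Agent.H96.TT.Fin1
import Pool.Agent.H96.TT.Arb1
import Pool.Agent.H96.TT.Dec
import Pool.Agent.H96.TT.Lb1
import Pool.Agent.H96.TT.Lb2
import Pool.Agent.H96.TT.Lb3

/-!
# The maximum tree thickness of connected planar triangle-free graphs is `⌊n/4⌋ + 1`

`thickness G` is the least number of trees in a decomposition of `G` into pairwise edge-disjoint
trees (`Pool.Agent.H96.TT.Stm`). Planarity is the existence of a straight-line drawing in the
plane (`HasStraightLineDrawing`), or of a rotation system satisfying Euler's formula
(`IsPlanar`), see `Pool.Graph.R_seed8.H239R2.Cover.PlanarDefs`.

Proof of the upper bound. A planar triangle-free graph is the union of two forests, so that there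
is a spanning tree `T` for which the remaining edges form a forest `H`. Choose `T` such that `H`
has as few components with an edge as possible, and subject to this the sum of the squares of the
degrees of `H` is as large as possible. To a component of `H` attach four vertices: if it has at
least four vertices, four of them; if it is a single edge, four vertices of its cycle in `T + e`;
if it is a path `x y z`, its vertices and the next vertex on the path of `T` from `y` to `x`.
Exchanges of edges show that these sets are disjoint. So `H` has at most `n/4` components.
-/

set_option autoImplicit false

namespace Pool.Agent.Results.MP_e7aab5_co.TreeThickness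

open SimpleGraph Pool.Agent.H96.TT Pool.Agent.H239R2.Planar

/-- (1) For every `n ≥ 1` the largest tree thickness of a connected triangle-free graph on `n`
vertices with a straight-line drawing in the plane is `⌊n/4⌋ + 1`. (2) The upper bound holds for
the connected triangle-free graphs which are planar in the sense of rotation systems and Euler's
formula, and (3) for all connected triangle-free graphs which are the union of two forests. -/
theorem result :
    (∀ n : ℕ, 1 ≤ n → IsGreatest {k | ∃ G : SimpleGraph (Fin n), G.Connected ∧ G.CliqueFree 3 ∧
      HasStraightLineDrawing G ∧ thickness G = k} (n / 4 + 1)) ∧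
    (∀ (V : Type) [Fintype V] (G : SimpleGraph V), G.Connected → G.CliqueFree 3 →
      IsPlanar G → thickness G ≤ Fintype.card V / 4 + 1) ∧
    (∀ (V : Type) [Fintype V] (G F₁ F₂ : SimpleGraph V), G.Connected → G.CliqueFree 3 →
      F₁.IsAcyclic → F₂.IsAcyclic → G = F₁ ⊔ F₂ → thickness G ≤ Fintype.card V / 4 + 1) :=
  final t_arb1 t_dec t_lb1 t_lb2 t_lb3

end Pool.Agent.Results.MP_e7aab5_co.TreeThickness
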